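import Pool.Agent.Helper967.FL10
import Pool.Agent.Helper967.AD6
import Pool.Agent.Y617.MO.Red

/-!
One quantifier-free formula with one numeral for all free Lie algebras of rank at least two over all
fields of characteristic zero. The definitions `FTerm`, `LTerm`, `LForm`, `Holds`, `code`, `num`,
`FieldUniversalTheoryDecidable` and `LieUniversalTheoryDecidable` are those of
`Pool.Agent.Helper967.FLDefs` and `Pool.Agent.Helper967.FL10`.
-/

set_option autoImplicit false

universe u v

namespace Pool.Agent.Results.MP_5be460_lc.OneFormula

open Pool.Agent.Helper967.FL Pool.Agent.Helper967.Dio Pool.Agent.Helper967.Dio.Sys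

/-- The quantifier-free formula `¬ (ψ ∧ m + x_k = 1)`; here `m` is the numeral
`0 + 1 + ... + 1` of the field sort and `x_k` a variable of the field sort. -/
def inst (ψ : LForm) (k m : ℕ) : LForm :=
  .not (.and ψ (.eqF (.add (num m) (.var k)) .one))

/-- The universal sentence `∀ x̄ φ(x̄)` holds in the free Lie algebra on `X` over `F`. -/
def TrueIn (F : Type u) [Field F] (X : Type v) (φ : LForm) : Prop :=
  ∀ (e : ℕ → F) (g : ℕ → FreeLieAlgebra F X), φ.Holds e g

/-- The universal sentence `∀ x̄ φ(x̄)` holds in the free Lie algebras on `X` over `F` for all pairs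
`(F, X)` in the class `K`. -/
def TrueInClass (K : (F : Type u) → Field F → (X : Type v) → Prop) (φ : LForm) : Prop :=
  ∀ (F : Type u) (i : Field F) (X : Type v), K F i X → TrueIn F X φ

/-- The class `K` consists of pairs of a field of characteristic zero and a set with at least two
elements, and there is such a pair in `K`. -/
def Good (K : (F : Type u) → Field F → (X : Type v) → Prop) : Prop :=
  (∀ (F : Type u) (i : Field F) (X : Type v), K F i X → CharZero F ∧ Nontrivial X) ∧
    ∃ (F : Type u) (i : Field F) (X : Type v), K F i X

/-- the halting set as a set of natural numbers -/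
def haltSet (a : ℕ) : Prop := (Nat.Partrec.Code.eval (Denumerable.ofNat Nat.Partrec.Code a) 0).Dom

theorem haltSet_re : REPred haltSet := by
  have h : Partrec fun a : ℕ => Nat.Partrec.Code.eval (Denumerable.ofNat Nat.Partrec.Code a) 0 :=
    Nat.Partrec.Code.eval_part.comp (Primrec.ofNat Nat.Partrec.Code).to_comp (Computable.const 0)
  exact h.dom_re

theorem haltSet_not_computable : ¬ ComputablePred haltSet := by
  intro h
  apply ComputablePred.halting_problem 0
  obtain ⟨inst, hc⟩ := h
  have h2 : Computable fun c : Nat.Partrec.Code => decide (haltSet (Encodable.encode c)) :=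
    hc.comp Computable.encode
  refine ⟨fun c => Classical.dec _, h2.of_eq fun c => ?_⟩
  have h3 : haltSet (Encodable.encode c) ↔ (Nat.Partrec.Code.eval c 0).Dom := by
    unfold haltSet
    rw [Denumerable.ofNat_encode]
  exact decide_eq_decide.2 h3

theorem primrec_inst (ψ : LForm) (k : ℕ) : Primrec fun m => (inst ψ k m).code := by
  have h : Primrec fun n : ℕ => Nat.pair 2 (Nat.pair 3 (Nat.pair ψ.code
      (Nat.pair 0 (Nat.pair (Nat.pair 3 (Nat.pair (num n).code (FTerm.var k).code))
        FTerm.one.code)))) := by
    refine Primrec₂.natPair.comp (Primrec.const _) ?_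
    refine Primrec₂.natPair.comp (Primrec.const _) ?_
    refine Primrec₂.natPair.comp (Primrec.const _) ?_
    refine Primrec₂.natPair.comp (Primrec.const _) ?_
    refine Primrec₂.natPair.comp ?_ (Primrec.const _)
    refine Primrec₂.natPair.comp (Primrec.const _) ?_
    exact Primrec₂.natPair.comp primrec_num (Primrec.const _)
  exact h

theorem core : ∃ (ψ : LForm) (k : ℕ), ∀ (F : Type u) [Field F] [CharZero F] (X : Type v)
    [Nontrivial X] (n : ℕ), TrueIn F X (inst ψ k (4 * n)) ↔ ¬ haltSet n := by
  obtain ⟨V, hV, f, L, hL⟩ := exists_system haltSet (dprm haltSet_re)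
  let ix : V → ℕ := fun v => (Fintype.equivFin V v : ℕ)
  have hix : Function.Injective ix := fun a b h =>
    (Fintype.equivFin V).injective (Fin.ext h)
  refine ⟨fixedf ix L, ix f, fun F _ _ X _ n => ?_⟩
  have h1 := paramf_sat (F := F) (X := X) ix hix f L n
  have h2 : haltSet n ↔ ∃ x : V → ℤ, x f = 1 - 4 * n ∧ ∀ q ∈ L, q.Holds x := by
    constructor
    · intro hn
      obtain ⟨x, hx1, hx2⟩ := (hL (1 - 4 * n)).2 ⟨n, hn, rfl⟩
      exact ⟨x, hx1, hx2⟩
    · rintro ⟨x, hx1, hx2⟩
      obtain ⟨n', hn', he⟩ := (hL (1 - 4 * n)).1 ⟨x, hx1, hx2⟩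
      have : (n : ℤ) = n' := by linarith
      rw [Nat.cast_inj.1 this]
      exact hn'
  rw [h2, ← h1]
  push Not
  rfl

/-- There are a quantifier-free formula `ψ` in the two-sorted language and a variable `x_k` of the
field sort such that, for the universal sentences `σ_m = ∀ x̄ ¬ (ψ ∧ m + x_k = 1)`,
(1) for every recursively enumerable set `P` of natural numbers there is a computable function `h`
such that for all fields `F` of characteristic zero and all sets `X` with at least two elements
`σ_{h(n)}` holds in the free Lie algebra `L_F(X)` if and only if `n` is not in `P`;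
(2) for every nonempty class `K` of pairs of a field of characteristic zero and a set with at least
two elements, no recursively enumerable set `E` contains exactly those of the numbers `m` for which
`σ_m` holds in all the algebras of `K`, and the set of all universal sentences which hold in all the
algebras of `K` is not recursively enumerable.
(3) For every algebraically closed field `F` of characteristic zero the universal theory of `F` is
decidable, and the universal theory of `L_F(X)` is undecidable for all `X` with at least two
elements. -/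
theorem result :
    (∃ (ψ : LForm) (k : ℕ),
      (∀ P : ℕ → Prop, REPred P → ∃ h : ℕ → ℕ, Computable h ∧
        ∀ (F : Type u) [Field F] [CharZero F] (X : Type v) [Nontrivial X] (n : ℕ),
          TrueIn F X (inst ψ k (h n)) ↔ ¬ P n) ∧
      (∀ K : (F : Type u) → Field F → (X : Type v) → Prop, Good K →
        (¬ REPred fun m => TrueInClass K (inst ψ k m)) ∧
        ¬ ∃ E : ℕ → Prop, REPred E ∧ ∀ φ : LForm, E φ.code ↔ TrueInClass K φ)) ∧
    (∀ (F : Type u) [Field F] [CharZero F] [IsAlgClosed F] (X : Type v) [Nontrivial X],
      FieldUniversalTheoryDecidable F ∧ ¬ LieUniversalTheoryDecidable F (FreeLieAlgebra F X)) := by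
  obtain ⟨ψ, k, hcore⟩ := core.{u, v}
  refine ⟨⟨ψ, k, ?_, ?_⟩, fun F _ _ _ X _ =>
    ⟨Pool.Agent.Helper967.AD.field_decidable F, lie_undecidable F X⟩⟩
  · intro P hP
    obtain ⟨c, hc, hcP⟩ := Pool.Agent.Y617.MO.exists_codes hP
    refine ⟨fun n => 4 * Encodable.encode (c n), ?_, fun F _ _ X _ n => ?_⟩
    · exact (Primrec.nat_mul.comp (Primrec.const 4) Primrec.id).to_comp.comp
        (Computable.encode.comp hc)
    · rw [hcore F X (Encodable.encode (c n)), ← hcP n]
      unfold haltSet
      rw [Denumerable.ofNat_encode]
  · rintro K ⟨hK, F0, i0, X0, hK0⟩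
    have hiff : ∀ n, TrueInClass K (inst ψ k (4 * n)) ↔ ¬ haltSet n := by
      intro n
      constructor
      · intro h
        obtain ⟨h1, h2⟩ := hK F0 i0 X0 hK0
        exact (hcore F0 X0 n).1 (h F0 i0 X0 hK0)
      · intro h F i X hKF
        obtain ⟨h1, h2⟩ := hK F i X hKF
        exact (hcore F X n).2 h
    have hno : ¬ REPred fun n => ¬ haltSet n := by
      classical
      intro hre
      exact haltSet_not_computable (ComputablePred.computable_iff_re_compl_re.2 ⟨haltSet_re, hre⟩)
    have h4 : Computable fun n : ℕ => 4 * n :=
      (Primrec.nat_mul.comp (Primrec.const 4) Primrec.id).to_comp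
    constructor
    · intro hre
      apply hno
      have h1 : REPred fun n => TrueInClass K (inst ψ k (4 * n)) := Partrec.comp hre h4
      exact h1.of_eq hiff
    · rintro ⟨E, hE, hEK⟩
      apply hno
      have h1 : REPred fun n => E (inst ψ k (4 * n)).code :=
        Partrec.comp hE ((primrec_inst ψ k).to_comp.comp h4)
      exact h1.of_eq fun n => (hEK _).trans (hiff n)

end Pool.Agent.Results.MP_5be460_lc.OneFormula
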